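import Mathlib
import Pool.Agent.X102.QV5

/-!
# MP_c8f9b2_an: volume of radial solutions of `Δ^m u = -e^u` in `ℝ^{2m}`

Definitions (in `Pool.Agent.X102.QV1` and `Pool.Agent.X102.QV5`):

* `RadLap N f g`: `f` is continuous on `[0,∞)`, differentiable on `(0,∞)` with
  `f'(r) → 0` as `r → 0+`, and `r^{N-1} f'` has derivative `r^{N-1} g` on `(0,∞)`, i.e.
  `g = r^{1-N} (r^{N-1} f')'` is the radial Laplacian of `f` in dimension `N`.
* `IsSol m a u`: there are functions `w 0 = u, w 1, ..., w m` with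
  `RadLap (2m) (w i) (w (i+1))` and `w i 0 = a i` for `i < m`, and `w m = - e^u` on `(0,∞)`:
  `u` is the radial solution of `Δ^m u = -e^u` with `Δ^i u (0) = a_i` and vanishing odd
  derivatives at the origin.
* `Vol m u = ∫_{ℝ^{2m}} e^{u(|x|)} dx` (an extended nonnegative number).

For every `m ≥ 3`: every `a ∈ ℝ^m` has a solution `u_a`, unique on `[0,∞)`; Q1: `V(a) < ∞` for
every `a`; Q2: `V` is not continuous on `ℝ^m`.
-/

set_option autoImplicit false

namespace Pool.Agent.Results.MP_c8f9b2_an.VolumeFiniteNotContinuous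

open Pool.Agent.X102.QV

/-- For every `m ≥ 3`: existence and uniqueness of `u_a` for every `a ∈ ℝ^m`; the volume `V(a)` is
finite for every `a` (Q1); `V` is not continuous on `ℝ^m` (Q2).

Proof of Q1. If `V(a) = ∞` then `I(r) = ∫_0^r s^{2m-1} e^u → ∞`. No `w_i = Δ^i u` (`1 ≤ i ≤ m`) is
eventually `≥ c > 0` or `≤ -c`: integrating down, `u` would grow (impossible, since then
`Δ^m u ≤ -1`) or decay quadratically (then `V < ∞`). So from `r^{2m-1} w_{m-1}' = -I → -∞` one gets,
going down, that each `w_i` is eventually monotone, tends to `0`, `r^{2i} w_i → ±∞` and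
`r^{2i-1} w_{i-1}' → ±∞`. At the end `r u' → ±∞`: with `+`, `u` is bounded below, with `-`,
`e^u = O(r^{-2m-1})`; both contradict `V = ∞`.

Proof of Q2. Take `a = (0, …, 0, -K, τ)`, `0 ≤ τ ≤ 1`. If the mass `I(∞)` is at most `B`, then
`w_{m-1} ≤ min(1, B r^{2-2m})`, because `lim w_{m-1} ≤ 0`; hence `w_{m-2} ≤ -K + B` everywhere and
`u ≤ -c (K-B) r^{2(m-2)}`, so the mass is in fact at most some `S < B` independent of `K`. For
`τ = 0` the mass is less than `B`; for `τ = 1` and `K` large it is more than `B`, as otherwise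
`w_{m-1} ≥ 1/2` everywhere. So `V` jumps over an interval along the segment `0 ≤ τ ≤ 1`. -/
theorem result (m : ℕ) (hm : 3 ≤ m) :
    ∃ u : (Fin m → ℝ) → ℝ → ℝ,
      (∀ a, IsSol m a (u a)) ∧
      (∀ a v, IsSol m a v → ∀ r : ℝ, 0 ≤ r → v r = u a r) ∧
      (∀ a, Vol m (u a) < ⊤) ∧
      ∃ a, ¬ ContinuousAt (fun b => Vol m (u b)) a := by
  choose u hu using fun a : Fin m → ℝ => exists_sol (m := m) (by omega) a
  refine ⟨u, hu, fun a v hv r hr => unique_sol (by omega) hv (hu a) r hr, fun a => ?_,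
    not_continuous hm u hu⟩
  rw [vol_eq (by omega) (hu a)]
  exact ENNReal.ofReal_lt_top

end Pool.Agent.Results.MP_c8f9b2_an.VolumeFiniteNotContinuous
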